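import Mathlib

/-!
# Generalized `m`-ary partition recurrences: large gaps do not force divisibility

`K = (k_n)` is a strictly increasing sequence of natural numbers with `k_0 = 0`.  We show that for
every `g ≥ 3` and every prime `p > 4 g` there is such a `K` all of whose gaps are at least `g`, and
a `K`-sequence `b` none of whose values is divisible by `p`.  With `g = 3`, `p = 13` this answers
the question of the problem in the negative.
-/

set_option autoImplicit false

namespace Pool.Agent.Results.MP_3fd052_nt.LargeGaps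

/-- The lower degree of `K = (k_n)`: the infimum (in `ℕ ∪ {∞}`, the infimum of the empty set being
`∞`) of the positive integers `d` that are equal to infinitely many gaps `k_{n+1} - k_n`. -/
noncomputable def lowerDegree (k : ℕ → ℕ) : ℕ∞ :=
  sInf {x : ℕ∞ | ∃ d : ℕ, 1 ≤ d ∧ {n : ℕ | k (n + 1) - k n = d}.Infinite ∧ x = (d : ℕ∞)}

/-- `b` is a `K`-sequence: it is constant on each block `k_n, ..., k_{n+1} - 1`, and
`b(k_n) - b(k_{n-1}) = b(n)` for all `n ≥ 1`. -/
def IsKSequence (k : ℕ → ℕ) (b : ℕ → ℤ) : Prop :=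
  (∀ n i : ℕ, k n ≤ i → i < k (n + 1) → b i = b (k n)) ∧
    ∀ n : ℕ, 1 ≤ n → b (k n) - b (k (n - 1)) = b n

/-- choice of the end point of a block -/
lemma choose_t {p g : ℕ} [Fact p.Prime] (hp : 4 * g < p) {u : ZMod p} (hu0 : u ≠ 0)
    (hu1 : u ≠ 1) : ∃ t r : ℕ, 1 ≤ t ∧ t ≤ g + 1 ∧ 1 ≤ r ∧ r + 2 * g + 1 ≤ p ∧
      (r : ZMod p) = -((t : ZMod p) * u) := by
  have hv : ((u.val : ℕ) : ZMod p) = u := ZMod.natCast_zmod_val u
  have hlt : u.val < p := ZMod.val_lt u
  have h0 : u.val ≠ 0 := by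
    rw [Ne, ZMod.val_eq_zero]; exact hu0
  have h1 : u.val ≠ 1 := by
    intro h
    apply hu1
    rw [← hv, h, Nat.cast_one]
  by_cases hc : 2 * g < u.val
  · refine ⟨1, p - u.val, le_rfl, by omega, by omega, by omega, ?_⟩
    rw [Nat.cast_sub hlt.le, hv]
    simp
  · have hle : u.val ≤ 2 * g := by omega
    have h2 : 2 ≤ u.val := by omega
    obtain ⟨q, hq⟩ : ∃ q, q = 2 * g / u.val := ⟨_, rfl⟩
    have hq1 : q * u.val ≤ 2 * g := by rw [hq]; exact Nat.div_mul_le_self _ _
    have hq2 : 2 * g < q * u.val + u.val := by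
      rw [hq]; exact Nat.lt_div_mul_add (by omega)
    have hq3 : q ≤ g := by
      rw [hq]
      calc 2 * g / u.val ≤ 2 * g / 2 := Nat.div_le_div_left h2 (by norm_num)
        _ = g := by omega
    have he : (q + 1) * u.val = q * u.val + u.val := by ring
    refine ⟨q + 1, p - (q + 1) * u.val, by omega, by omega, by omega, by omega, ?_⟩
    rw [Nat.cast_sub (by omega)]
    rw [Nat.cast_mul, hv]
    simp

/-- The state of the construction when the block number `j` begins: `k = k_j`, and `B i`, for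
`i < k`, is the common value of `b` on the block number `i`. -/
structure Inv (p g j k : ℕ) (B : ℕ → ℤ) : Prop where
  one : 1 ≤ j
  lt : j + 1 < k
  val : ∀ i < k, (B i : ZMod p) ≠ 0
  dif : ∀ i, 1 ≤ i → i < k → ((B i - B (i - 1) : ℤ) : ZMod p) ≠ 0
  rat : ∃ r : ℕ, 1 ≤ r ∧ r + 2 * g + 1 ≤ p ∧ (B (k - 1) : ZMod p) = (r : ZMod p) * (B j : ZMod p)

/-- one step of the construction -/
lemma step {p g : ℕ} [Fact p.Prime] (hg : 3 ≤ g) (hp : 4 * g < p) {j k : ℕ} {B : ℕ → ℤ}
    (h : Inv p g j k B) : ∃ (k' : ℕ) (B' : ℕ → ℤ), Inv p g (j + 1) k' B' ∧ k + g ≤ k' ∧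
      (∀ i < k, B' i = B i) ∧ ∀ i, k ≤ i → i < k' → B' i - B' (i - 1) = B j := by
  obtain ⟨h1, hlt, hval, hdif, r, hr1, hr2, hr⟩ := h
  have hc : (B j : ZMod p) ≠ 0 := hval j (by omega)
  have hc' : (B (j + 1) : ZMod p) ≠ 0 := hval (j + 1) hlt
  have hne : (B j : ZMod p) ≠ (B (j + 1) : ZMod p) := by
    intro he
    apply hdif (j + 1) (by omega) hlt
    push_cast
    rw [he, sub_self]
  obtain ⟨t, r', ht1, ht2, hr1', hr2', hr'⟩ := choose_t (g := g) hp
    (u := (B j : ZMod p) / (B (j + 1) : ZMod p)) (div_ne_zero hc hc')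
    (by rw [Ne, div_eq_one_iff_eq hc']; exact hne)
  -- the length of the block
  obtain ⟨G, hG⟩ : ∃ G, G = p - t - r := ⟨_, rfl⟩
  have hGg : g ≤ G := by omega
  obtain ⟨B', hB'⟩ : ∃ B' : ℕ → ℤ, B' = fun i => if i < k then B i else
    B (k - 1) + ((i - (k - 1) : ℕ) : ℤ) * B j := ⟨_, rfl⟩
  have hlow : ∀ i < k, B' i = B i := by
    intro i hi
    rw [hB']; simp [hi]
  have hform : ∀ i, k - 1 ≤ i → B' i = B (k - 1) + ((i - (k - 1) : ℕ) : ℤ) * B j := by
    intro i hi
    rw [hB']
    by_cases hik : i < k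
    · have : i = k - 1 := by omega
      subst this
      simp [hik]
    · simp [hik]
  have hmod : ∀ i, k - 1 ≤ i → (B' i : ZMod p) =
      ((r + (i - (k - 1)) : ℕ) : ZMod p) * (B j : ZMod p) := by
    intro i hi
    rw [hform i hi]
    push_cast
    rw [hr]
    ring
  have hstep : ∀ i, k ≤ i → B' i - B' (i - 1) = B j := by
    intro i hi
    rw [hform i (by omega), hform (i - 1) (by omega)]
    have : i - (k - 1) = (i - 1 - (k - 1)) + 1 := by omega
    rw [this]
    push_cast
    ring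
  refine ⟨k + G, B', ⟨by omega, by omega, ?_, ?_, r', hr1', hr2', ?_⟩, by omega, hlow,
    fun i hi _ => hstep i hi⟩
  · intro i hi
    by_cases hik : i < k
    · rw [hlow i hik]; exact hval i hik
    · rw [hmod i (by omega)]
      apply mul_ne_zero _ hc
      rw [Ne, ZMod.natCast_eq_zero_iff]
      intro hd
      have := Nat.le_of_dvd (by omega) hd
      omega
  · intro i hi1 hi
    by_cases hik : i < k
    · rw [hlow i hik, hlow (i - 1) (by omega)]; exact hdif i hi1 hik
    · rw [hstep i (by omega)]; exact hc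
  · rw [hmod (k + G - 1) (by omega), hlow (j + 1) hlt, hr']
    have e1 : r + (k + G - 1 - (k - 1)) = p - t := by omega
    rw [e1, Nat.cast_sub (by omega)]
    simp only [CharP.cast_eq_zero, zero_sub]
    field_simp

/-- the initial state -/
lemma init {p g : ℕ} [Fact p.Prime] (hg : 3 ≤ g) (hp : 4 * g < p) :
    Inv p g 1 (2 * g) (fun n => (n : ℤ) + 1) := by
  have hnz : ∀ i : ℕ, 1 ≤ i → i < p → ((i : ℕ) : ZMod p) ≠ 0 := by
    intro i h1 h2
    rw [Ne, ZMod.natCast_eq_zero_iff]
    intro hd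
    have := Nat.le_of_dvd (by omega) hd
    omega
  refine ⟨le_rfl, by omega, ?_, ?_, g, by omega, by omega, ?_⟩
  · intro i hi
    have := hnz (i + 1) (by omega) (by omega)
    push_cast at this ⊢
    exact this
  · intro i hi1 hi
    have e : ((i : ℤ) + 1 - (((i - 1 : ℕ) : ℤ) + 1)) = 1 := by
      rw [Nat.cast_sub hi1]; push_cast; ring
    show (((i : ℤ) + 1 - (((i - 1 : ℕ) : ℤ) + 1) : ℤ) : ZMod p) ≠ 0
    rw [e]
    simp
  · have e : (((2 * g - 1 : ℕ) : ℤ) + 1) = 2 * g := by
      rw [Nat.cast_sub (by omega)]; push_cast; ring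
    show (((((2 * g - 1 : ℕ) : ℤ) + 1 : ℤ)) : ZMod p) = (g : ZMod p) * ((((1 : ℕ) : ℤ) + 1 : ℤ) : ZMod p)
    rw [e]
    push_cast
    ring

/-- the data of a state -/
structure St (p g j : ℕ) where
  k : ℕ
  B : ℕ → ℤ
  inv : Inv p g j k B

/-- For every `g ≥ 3` and every prime `p > 4 g` there are a strictly increasing sequence
`K = (k_n)` with `k_0 = 0`, all of whose gaps are at least `g` (so that its lower degree is at
least `g`), and a `K`-sequence `b` of integers none of whose values is divisible by `p`. -/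
theorem result : ∀ g p : ℕ, 3 ≤ g → p.Prime → 4 * g < p →
    ∃ (k : ℕ → ℕ) (b : ℕ → ℤ), k 0 = 0 ∧ StrictMono k ∧ (∀ n, k n + g ≤ k (n + 1)) ∧
      (g : ℕ∞) ≤ lowerDegree k ∧ IsKSequence k b ∧ ∀ n, ¬ (p : ℤ) ∣ b n := by
  intro g p hg hpp hp
  have : Fact p.Prime := ⟨hpp⟩
  -- the sequence of states
  have hex : ∀ (j : ℕ) (s : St p g (j + 1)), ∃ s' : St p g (j + 1 + 1), s.k + g ≤ s'.k ∧
      (∀ i < s.k, s'.B i = s.B i) ∧
      ∀ i, s.k ≤ i → i < s'.k → s'.B i - s'.B (i - 1) = s.B (j + 1) := by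
    intro j s
    obtain ⟨k', B', hi, h1, h2, h3⟩ := step hg hp s.inv
    exact ⟨⟨k', B', hi⟩, h1, h2, h3⟩
  choose F hF using hex
  let σ : (j : ℕ) → St p g (j + 1) := fun j => Nat.rec ⟨2 * g, fun n : ℕ => (n : ℤ) + 1, init hg hp⟩ F j
  have hσ0 : (σ 0).k = 2 * g := rfl
  have hσ0B : (σ 0).B = fun n : ℕ => (n : ℤ) + 1 := rfl
  have hσs : ∀ j, σ (j + 1) = F j (σ j) := fun j => rfl
  have hk : ∀ j, (σ j).k + g ≤ (σ (j + 1)).k := by
    intro j; rw [hσs]; exact (hF j (σ j)).1
  have hB : ∀ j, ∀ i < (σ j).k, (σ (j + 1)).B i = (σ j).B i := by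
    intro j; rw [hσs]; exact (hF j (σ j)).2.1
  have hD : ∀ j, ∀ i, (σ j).k ≤ i → i < (σ (j + 1)).k →
      (σ (j + 1)).B i - (σ (j + 1)).B (i - 1) = (σ j).B (j + 1) := by
    intro j; rw [hσs]; exact (hF j (σ j)).2.2
  have hkj : ∀ j, j + 2 < (σ j).k := fun j => (σ j).inv.lt
  have hBle : ∀ j d, ∀ i < (σ j).k, (σ (j + d)).B i = (σ j).B i := by
    intro j d
    induction d with
    | zero => intro i _; rfl
    | succ d ih =>
      intro i hi
      have hmono : (σ j).k ≤ (σ (j + d)).k := by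
        clear ih
        induction d with
        | zero => exact le_rfl
        | succ d ih2 => have := hk (j + d); rw [← Nat.add_assoc]; omega
      rw [← Nat.add_assoc, hB (j + d) i (by omega), ih i hi]
  -- the limit
  let V : ℕ → ℤ := fun n => (σ n).B n
  have hV : ∀ j, ∀ i < (σ j).k, (σ j).B i = V i := by
    intro j i hi
    rcases le_total j i with h | h
    · obtain ⟨d, rfl⟩ := Nat.exists_eq_add_of_le h
      exact (hBle j d (j + d) hi).symm
    · obtain ⟨d, rfl⟩ := Nat.exists_eq_add_of_le h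
      exact hBle i d i (by have := hkj i; omega)
  have hVnz : ∀ i, ((V i : ℤ) : ZMod p) ≠ 0 := by
    intro i
    exact (σ i).inv.val i (by have := hkj i; omega)
  let k : ℕ → ℕ := fun n => if n = 0 then 0 else (σ (n - 1)).k
  have hk0 : k 0 = 0 := by simp [k]
  have hks : ∀ n, k (n + 1) = (σ n).k := by intro n; simp [k]
  let b : ℕ → ℤ := fun n => if n = 0 then V 0 else V n - V (n - 1)
  have hV0 : ∀ i < 2 * g, V i = (i : ℤ) + 1 := by
    intro i hi
    rw [← hV 0 i (by rw [hσ0]; exact hi), hσ0B]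
  have hb0 : ∀ i < 2 * g, b i = 1 := by
    intro i hi
    by_cases h : i = 0
    · subst h
      simp only [b, if_true]
      rw [hV0 0 hi]; simp
    · simp only [b, if_neg h]
      rw [hV0 i hi, hV0 (i - 1) (by omega), Nat.cast_sub (by omega)]
      push_cast; ring
  have hbj : ∀ j i, (σ j).k ≤ i → i < (σ (j + 1)).k → b i = V (j + 1) := by
    intro j i h1 h2
    have hi0 : i ≠ 0 := by have := hkj j; omega
    have := hD j i h1 h2
    rw [hV (j + 1) i h2, hV (j + 1) (i - 1) (by omega), hV j (j + 1) (by have := hkj j; omega)] at this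
    simp only [b, if_neg hi0]
    exact this
  have hbk : ∀ n, b (k n) = V n := by
    intro n
    rcases n with _ | n
    · rw [hk0, hb0 0 (by omega), hV0 0 (by omega)]; simp
    · rw [hks, hbj n _ le_rfl (by have := hk n; omega)]
  have hgap : ∀ n, k n + g ≤ k (n + 1) := by
    intro n
    rcases n with _ | n
    · rw [hk0, hks, hσ0]; omega
    · rw [hks, hks]; exact hk n
  refine ⟨k, b, hk0, strictMono_nat_of_lt_succ (fun n => by have := hgap n; omega), hgap, ?_,
    ⟨?_, ?_⟩, ?_⟩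
  · apply le_sInf
    rintro x ⟨d, _, hinf, rfl⟩
    obtain ⟨n, hn⟩ := hinf.nonempty
    have h1 := hgap n
    have h2 : k (n + 1) - k n = d := hn
    have : g ≤ d := by omega
    exact_mod_cast this
  · intro n i h1 h2
    rw [hbk]
    rcases n with _ | n
    · rw [hks, hσ0] at h2
      rw [hb0 i h2, hV0 0 (by omega)]; simp
    · rw [hks] at h1 h2
      exact hbj n i h1 h2
  · intro n hn
    rw [hbk, hbk]
    simp only [b, if_neg (by omega : n ≠ 0)]
  · intro n hdvd
    have h1 : ((b n : ℤ) : ZMod p) = 0 := (ZMod.intCast_zmod_eq_zero_iff_dvd (b n) p).mpr hdvd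
    by_cases hn : n < 2 * g
    · rw [hb0 n hn] at h1
      simp at h1
    · -- `n` lies in some block
      have hex2 : ∃ j, n < (σ (j + 1)).k := ⟨n, by have := hkj (n + 1); omega⟩
      classical
      have hj := Nat.find_spec hex2
      set j := Nat.find hex2 with hjdef
      have hj2 : (σ j).k ≤ n := by
        rcases Nat.eq_zero_or_pos j with h0 | h0
        · rw [h0, hσ0]; omega
        · have := Nat.find_min hex2 (m := j - 1) (by omega)
          rw [not_lt] at this
          have e : j - 1 + 1 = j := by omega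
          rwa [e] at this
      rw [hbj j n hj2 hj] at h1
      exact hVnz (j + 1) h1

end Pool.Agent.Results.MP_3fd052_nt.LargeGaps
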